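import Pool.Agent.Helper64.CT.Stmts

/-! MP_866009_co: adding one vertex to a model. -/

set_option autoImplicit false

namespace Pool.Agent.Helper64.CT

open Pool.Agent.Helper64.HG (Ovl Model Circ IC HellyCircle)

/-- the prescribed sides of an endpoint of `z` -/
def stepTau {V : Type} (G : SimpleGraph V) (s : V → V → Bool) (z : V) (ε : V → Bool)
    (τ : V → Bool) (w : Bool) (y : V) : Prop :=
  (G.Adj z y ∧ τ y = w) ∨ (¬ G.Adj z y ∧ s y z = ε y)

theorem stepTau_adj {V : Type} {G : SimpleGraph V} {s : V → V → Bool} {z : V} {ε : V → Bool}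
    {τ : V → Bool} {w : Bool} {y : V} (h : G.Adj z y) :
    stepTau G s z ε τ w y ↔ τ y = w := by
  unfold stepTau
  tauto

theorem stepTau_nadj {V : Type} {G : SimpleGraph V} {s : V → V → Bool} {z : V} {ε : V → Bool}
    {τ : V → Bool} {w : Bool} {y : V} (h : ¬ G.Adj z y) :
    stepTau G s z ε τ w y ↔ s y z = ε y := by
  unfold stepTau
  tauto

theorem step_bool (x d : Bool) (w : Bool) (P : Prop) (h : d = true ↔ P) :
    ((x = w) ↔ P) ↔ ((x = d) ↔ w = true) := by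
  rw [← h]
  cases x <;> cases d <;> cases w <;> simp

theorem step_pos (hPOS : ST_POS) (hCPT : ST_CPT) (hCYZ : ST_CYZ) {V : Type} [Finite V]
    {G : SimpleGraph V} {s : V → V → Bool} {T : Set V} {z : V} {l r : V → ℝ} {ε : V → Bool}
    (hTF : TF G) (hS : SNS G s) (hz : z ∉ T) (hp : ∃ p ∈ T, G.Adj z p) (hM : MOn G T l r)
    (hR : Rlz G T l r s ε) (D : V → V → Bool) (hD : ∀ p q, D p q = true ↔ Ins l r p q)
    (τ : V → Bool) (hτ : ∀ p ∈ {p | p ∈ T ∧ G.Adj z p}, ∀ q ∈ {p | p ∈ T ∧ G.Adj z p}, p ≠ q →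
      (τ p = D p q ↔ ¬ τ q = D q p)) (w : Bool) :
    ∃ t : ℝ, (∀ y ∈ T, t ≠ l y ∧ t ≠ r y) ∧
      ∀ y ∈ T, ((l y < t ∧ t < r y) ↔ stepTau G s z ε τ w y) := by
  have hne : ∀ y ∈ T, y ≠ z := fun y hy h => hz (h ▸ hy)
  have hboth : ∀ p ∈ T, ∀ q ∈ T, G.Adj z p → G.Adj z q → p ≠ q →
      ((stepTau G s z ε τ w p ↔ Ins l r p q) ↔ ¬ (stepTau G s z ε τ w q ↔ Ins l r q p)) := by
    intro p hpT q hqT hzp hzq hpq
    have h1 := hτ p ⟨hpT, hzp⟩ q ⟨hqT, hzq⟩ hpq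
    rw [stepTau_adj hzp, stepTau_adj hzq, step_bool _ _ _ _ (hD p q), step_bool _ _ _ _ (hD q p)]
    tauto
  have hcomp : ∀ y ∈ T, ∀ y' ∈ T, y' ∈ Far G y →
      (stepTau G s z ε τ w y ↔ Ins l r y y') ∨ (stepTau G s z ε τ w y' ↔ Ins l r y' y) := by
    intro y hy y' hy' hf
    by_cases h1 : G.Adj z y
    · by_cases h2 : G.Adj z y'
      · have h3 := hboth y hy y' hy' h1 h2 (Ne.symm hf.1)
        by_cases h4 : (stepTau G s z ε τ w y' ↔ Ins l r y' y)
        · exact Or.inr h4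
        · exact Or.inl (h3.2 h4)
      · right
        rw [stepTau_nadj h2, hR y' hy' y hy (Far.symm hf)]
        have h3 : s y' z = s y' y := hS.1 y' z y ⟨(hne y' hy').symm, fun h => h2 h.symm⟩
          (Far.symm hf) h1
        rw [h3]
    · by_cases h2 : G.Adj z y'
      · left
        rw [stepTau_nadj h1, hR y hy y' hy' hf]
        have h3 : s y z = s y y' := hS.1 y z y' ⟨(hne y hy).symm, fun h => h1 h.symm⟩ hf h2
        rw [h3]
      · obtain ⟨p, hpT, hzp⟩ := hp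
        rcases hCPT V G s T z l r ε hTF hS hz hM hR p hpT hzp y hy y' hy' ⟨hne y hy, h1⟩
          ⟨hne y' hy', h2⟩ hf with h3 | h3
        · left
          rw [stepTau_nadj h1, hR y hy y' hy' hf, h3]
        · right
          rw [stepTau_nadj h2, hR y' hy' y hy (Far.symm hf), h3]
  rcases hPOS V G T l r (stepTau G s z ε τ w) hTF hM hcomp with h | ⟨L, hIC, hL4, hLT, hLτ, hLt⟩
  · exact h
  · exfalso
    refine hCYZ V G s T z l r ε (stepTau G s z ε τ w) L hTF hS hz hM hR hp ?_ ?_ hIC hL4 hLT hLτ hLt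
    · intro y _ hy
      exact stepTau_nadj hy.2
    · intro p hpT q hqT hzp hzq hpq h
      exact (hboth p hpT q hqT hzp hzq hpq).1 h.1 h.2

theorem step_ab {V : Type} {G : SimpleGraph V} {s : V → V → Bool} {T : Set V} {z : V}
    {l r : V → ℝ} {ε : V → Bool} {τ : V → Bool} (hp : ∃ p ∈ T, G.Adj z p) {t h : ℝ}
    (ht : ∀ y ∈ T, t ≠ l y ∧ t ≠ r y)
    (ht' : ∀ y ∈ T, ((l y < t ∧ t < r y) ↔ stepTau G s z ε τ true y))
    (hh : ∀ y ∈ T, h ≠ l y ∧ h ≠ r y)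
    (hh' : ∀ y ∈ T, ((l y < h ∧ h < r y) ↔ stepTau G s z ε τ false y)) :
    ∃ a b : ℝ, a < b ∧ (∀ y ∈ T, a ≠ l y ∧ a ≠ r y ∧ b ≠ l y ∧ b ≠ r y) ∧
      (∀ y ∈ T, G.Adj z y → ((l y < a ∧ a < r y) ↔ ¬ (l y < b ∧ b < r y))) ∧
      ∀ y ∈ T, ¬ G.Adj z y → ((l y < a ∧ a < r y) ↔ s y z = ε y) ∧
        ((l y < b ∧ b < r y) ↔ s y z = ε y) := by
  have key : ∀ y ∈ T, G.Adj z y → ((l y < t ∧ t < r y) ↔ ¬ (l y < h ∧ h < r y)) := by
    intro y hy hzy
    rw [ht' y hy, hh' y hy, stepTau_adj hzy, stepTau_adj hzy]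
    cases τ y <;> simp
  have key2 : ∀ y ∈ T, ¬ G.Adj z y → ((l y < t ∧ t < r y) ↔ s y z = ε y) ∧
      ((l y < h ∧ h < r y) ↔ s y z = ε y) := by
    intro y hy hzy
    rw [ht' y hy, hh' y hy, stepTau_nadj hzy, stepTau_nadj hzy]
    exact ⟨Iff.rfl, Iff.rfl⟩
  have hth : t ≠ h := by
    rintro rfl
    obtain ⟨p, hpT, hzp⟩ := hp
    have := key p hpT hzp
    tauto
  rcases lt_or_gt_of_ne hth with h1 | h1
  · exact ⟨t, h, h1, fun y hy => ⟨(ht y hy).1, (ht y hy).2, (hh y hy).1, (hh y hy).2⟩, key, key2⟩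
  · refine ⟨h, t, h1, fun y hy => ⟨(hh y hy).1, (hh y hy).2, (ht y hy).1, (ht y hy).2⟩, ?_, ?_⟩
    · intro y hy hzy
      have := key y hy hzy
      tauto
    · intro y hy hzy
      exact (key2 y hy hzy).symm

theorem step_ovl {V : Type} {G : SimpleGraph V} {s : V → V → Bool} {T : Set V} {z : V}
    {l r : V → ℝ} {ε : V → Bool} (hM : MOn G T l r) {a b : ℝ} (hab : a < b)
    (hne : ∀ y ∈ T, a ≠ l y ∧ a ≠ r y ∧ b ≠ l y ∧ b ≠ r y)
    (h1 : ∀ y ∈ T, G.Adj z y → ((l y < a ∧ a < r y) ↔ ¬ (l y < b ∧ b < r y)))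
    (h2 : ∀ y ∈ T, ¬ G.Adj z y → ((l y < a ∧ a < r y) ↔ s y z = ε y) ∧
        ((l y < b ∧ b < r y) ↔ s y z = ε y)) (y : V) (hy : y ∈ T) :
    G.Adj z y ↔ ((a < l y ∧ l y < b ∧ b < r y) ∨ (l y < a ∧ a < r y ∧ r y < b)) := by
  obtain ⟨n1, n2, n3, n4⟩ := hne y hy
  have hlt := hM.lt y hy
  by_cases hzy : G.Adj z y
  · refine ⟨fun _ => ?_, fun _ => hzy⟩
    have h3 := h1 y hy hzy
    by_cases h4 : l y < a ∧ a < r y
    · right
      have h5 := h3.1 h4
      refine ⟨h4.1, h4.2, ?_⟩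
      by_contra h6
      exact h5 ⟨h4.1.trans hab, lt_of_le_of_ne (not_lt.1 h6) n4⟩
    · left
      have h5 : l y < b ∧ b < r y := by
        by_contra h6
        exact h4 (h3.2 h6)
      refine ⟨?_, h5.1, h5.2⟩
      by_contra h6
      exact h4 ⟨lt_of_le_of_ne (not_lt.1 h6) (Ne.symm n1), hab.trans h5.2⟩
  · refine ⟨fun h => absurd h hzy, ?_⟩
    obtain ⟨h3, h4⟩ := h2 y hy hzy
    have h5 : (l y < a ∧ a < r y) ↔ (l y < b ∧ b < r y) := h3.trans h4.symm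
    rintro (⟨g1, g2, g3⟩ | ⟨g1, g2, g3⟩)
    · exact absurd (h5.2 ⟨g2, g3⟩).1 (not_lt.2 g1.le)
    · exact absurd (h5.1 ⟨g1, g2⟩).2 (not_lt.2 g3.le)

theorem step_sym {V : Type} (l r : V → ℝ) (u v : V) : Ovl l r u v ↔ Ovl l r v u := by
  unfold Ovl
  tauto

theorem st_STEP (hPOS : ST_POS) (hTAU : ST_TAU) (hCPT : ST_CPT) (hCYZ : ST_CYZ)
    (hRZZ : ST_RZZ) : ST_STEP := by
  classical
  intro V _ G s T z l r ε hTF hS hz hpre hp hM hR
  obtain ⟨D, hD⟩ : ∃ D : V → V → Bool, ∀ p q, D p q = true ↔ Ins l r p q :=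
    ⟨fun p q => decide (Ins l r p q), fun p q => decide_eq_true_iff⟩
  have hfar : ∀ p ∈ {p | p ∈ T ∧ G.Adj z p}, ∀ q ∈ {p | p ∈ T ∧ G.Adj z p}, p ≠ q →
      q ∈ Far G p := by
    rintro p ⟨_, h1⟩ q ⟨_, h2⟩ hpq
    exact ⟨Ne.symm hpq, hTF p z q h1.symm h2⟩
  have hDs : ∀ p ∈ {p | p ∈ T ∧ G.Adj z p}, ∀ q ∈ {p | p ∈ T ∧ G.Adj z p}, p ≠ q →
      (D p q = true ↔ s p q = ε p) := by
    intro p hp' q hq' hpq
    rw [hD, hR p hp'.1 q hq'.1 (hfar p hp' q hq' hpq)]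
  have hDD : ∀ a ∈ {p | p ∈ T ∧ G.Adj z p}, ∀ b ∈ {p | p ∈ T ∧ G.Adj z p},
      ∀ c ∈ {p | p ∈ T ∧ G.Adj z p}, c ≠ a → c ≠ b → ((D c a ≠ D c b) ↔ (s c a ≠ s c b)) := by
    intro a ha b hb c hc hca hcb
    have h1 := hDs c hc a ha hca
    have h2 := hDs c hc b hb hcb
    generalize D c a = d1 at *
    generalize D c b = d2 at *
    generalize s c a = s1 at *
    generalize s c b = s2 at *
    generalize ε c = e at *
    cases d1 <;> cases d2 <;> cases s1 <;> cases s2 <;> cases e <;> simp at h1 h2 ⊢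
  obtain ⟨τ, hτ⟩ := hTAU V {p | p ∈ T ∧ G.Adj z p} D (by
    intro a ha b hb c hc hab hac hbc
    rw [hDD a ha b hb c hc (Ne.symm hac) (Ne.symm hbc), hDD b hb c hc a ha hab hac,
      hDD a ha c hc b hb (Ne.symm hab) hbc]
    exact hS.2 z a b c ha.2 hb.2 hc.2 hab hac hbc)
  obtain ⟨t, ht, ht'⟩ := step_pos hPOS hCPT hCYZ hTF hS hz hp hM hR D hD τ hτ true
  obtain ⟨h, hh, hh'⟩ := step_pos hPOS hCPT hCYZ hTF hS hz hp hM hR D hD τ hτ false
  obtain ⟨a, b, hab, hne, h1, h2⟩ := step_ab hp ht ht' hh hh'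
  have hov := step_ovl hM hab hne h1 h2
  have hzT : ∀ y ∈ T, y ≠ z := fun y hy h => hz (h ▸ hy)
  obtain ⟨l', hl'⟩ : ∃ l' : V → ℝ, l' = Function.update l z a := ⟨_, rfl⟩
  obtain ⟨r', hr'⟩ : ∃ r' : V → ℝ, r' = Function.update r z b := ⟨_, rfl⟩
  have lz : l' z = a := by rw [hl', Function.update_self]
  have rz : r' z = b := by rw [hr', Function.update_self]
  have lT : ∀ y ∈ T, l' y = l y := fun y hy => by
    rw [hl', Function.update_of_ne (hzT y hy)]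
  have rT : ∀ y ∈ T, r' y = r y := fun y hy => by
    rw [hr', Function.update_of_ne (hzT y hy)]
  have hovz : ∀ y ∈ T, (G.Adj z y ↔ Ovl l' r' z y) := by
    intro y hy
    rw [hov y hy]
    unfold Ovl
    rw [lz, rz, lT y hy, rT y hy]
  have hM' : MOn G (insert z T) l' r' := by
    constructor
    · rintro v (rfl | hv)
      · rw [lz, rz]; exact hab
      · rw [lT v hv, rT v hv]; exact hM.lt v hv
    · rintro u (rfl | hu) v (rfl | hv) huv
      · rfl
      · rw [lz, lT v hv] at huv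
        exact absurd huv (hne v hv).1
      · rw [lz, lT u hu] at huv
        exact absurd huv.symm (hne u hu).1
      · rw [lT u hu, lT v hv] at huv
        exact hM.injl u hu v hv huv
    · rintro u (rfl | hu) v (rfl | hv) huv
      · rfl
      · rw [rz, rT v hv] at huv
        exact absurd huv (hne v hv).2.2.2
      · rw [rz, rT u hu] at huv
        exact absurd huv.symm (hne u hu).2.2.2
      · rw [rT u hu, rT v hv] at huv
        exact hM.injr u hu v hv huv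
    · rintro u (rfl | hu) v (rfl | hv)
      · rw [lz, rz]; exact ne_of_lt hab
      · rw [lz, rT v hv]; exact (hne v hv).2.1
      · rw [rz, lT u hu]; exact (hne u hu).2.2.1.symm
      · rw [lT u hu, rT v hv]; exact hM.ne u hu v hv
    · rintro u (rfl | hu) v (rfl | hv)
      · refine ⟨fun h => absurd h (SimpleGraph.irrefl G), ?_⟩
        rintro (h | h)
        · exact absurd h.1 (lt_irrefl _)
        · exact absurd h.1 (lt_irrefl _)
      · exact hovz v hv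
      · rw [G.adj_comm, hovz u hu, step_sym]
      · rw [hM.adj u hu v hv]
        unfold Ovl
        rw [lT u hu, lT v hv, rT u hu, rT v hv]
  have hside : ∀ y ∈ T, ∀ x ∈ insert z T, x ∈ Far G y → (Ins l' r' y x ↔ s y x = ε y) := by
    rintro y hy x (rfl | hx) hf
    · have hzy : ¬ G.Adj x y := fun h => hf.2 h.symm
      obtain ⟨g1, g2⟩ := h2 y hy hzy
      unfold Ins
      rw [lz, rz, lT y hy, rT y hy]
      constructor
      · rintro ⟨g3, g4⟩
        exact g1.1 ⟨g3, hab.trans g4⟩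
      · intro g3
        exact ⟨(g1.2 g3).1, (g2.2 g3).2⟩
    · rw [← hR y hy x hx hf]
      unfold Ins
      rw [lT y hy, lT x hx, rT y hy, rT x hx]
  obtain ⟨b', hb'⟩ := hRZZ V G s T z l' r' ε hTF hS hz hpre hM' hside
  refine ⟨l', r', Function.update ε z b', hM', ?_⟩
  rintro y (rfl | hy) x hx hf
  · rw [Function.update_self]
    rcases hx with rfl | hx
    · exact absurd rfl hf.1
    · exact hb' x hx hf
  · rw [Function.update_of_ne (hzT y hy)]
    exact hside y hy x hx hf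

end Pool.Agent.Helper64.CT
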